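import Pool.Agent.H220.TS.Asm
import Pool.Agent.H102.TS.Tan
import Pool.Agent.H152.TS.Grow
import Pool.Agent.H190.TS.Pick
import Pool.Agent.H280.TS.Orbit
import Pool.Agent.H379.TS.Inv
import Pool.Agent.H383.TS.cay
import Pool.Agent.H402.TS.Julia
import Pool.Agent.H457.TS.Seq0
import Pool.Agent.H663.TS.Step
import Pool.Agent.H703.TS.Omega
import Pool.Agent.H795.TS.Strip
import Pool.Agent.H824.TS.Cover
import Pool.Agent.H977.TS.seqK

set_option autoImplicit false

open Set Filter Topology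

/-!
# Tangential speed `(1/2) log t + O(1)` forces positive hyperbolic step (MP_ab13d2_an, Q2)
-/

namespace Pool.Agent.Results.MP_ab13d2_an.TangentialSpeedConverse

open Pool.Agent.H220.TS

/-- Every non-elliptic semigroup with `v^T(t) ≥ (1/2) log t - C` for `t ≥ 1` (in particular every one
with property `(∗)`) is parabolic of positive hyperbolic step: for every Koenigs function `h` the
domain `Ω` is a half-plane, and the hyperbolic step has a positive limit. -/
theorem result (φ : ℝ → ℂ → ℂ) (τ : ℂ) (hφ : IsSemigroup φ) (hτ : IsDenjoyWolff φ τ)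
    (hv : ∃ C : ℝ, ∀ t : ℝ, 1 ≤ t → 1 / 2 * Real.log t - C ≤ vT φ τ t) :
    (∀ h : ℂ → ℂ, IsKoenigs φ h →
      (∃ a : ℝ, Omega h = {w | a < w.re}) ∨ (∃ a : ℝ, Omega h = {w | w.re < a})) ∧
    ∃ l : ℝ, 0 < l ∧ Tendsto (fun t : ℝ => omega (φ t 0) (φ (t + 1) 0)) atTop (𝓝 l) :=
  asm Pool.Agent.H190.TS.s_pick Pool.Agent.H457.TS.s_seq0 Pool.Agent.H977.TS.s_seqK
    (Pool.Agent.H280.TS.s_orbit Pool.Agent.H190.TS.s_pick Pool.Agent.H383.TS.s_cay
      (Pool.Agent.H402.TS.s_julia Pool.Agent.H190.TS.s_pick)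
      (Pool.Agent.H102.TS.s_tan Pool.Agent.H190.TS.s_pick Pool.Agent.H383.TS.s_cay))
    (Pool.Agent.H379.TS.s_inv Pool.Agent.H190.TS.s_pick) Pool.Agent.H703.TS.s_omega
    Pool.Agent.H824.TS.s_cover (Pool.Agent.H795.TS.s_strip Pool.Agent.H152.TS.s_grow)
    (Pool.Agent.H663.TS.s_step Pool.Agent.H190.TS.s_pick) φ τ hφ hτ hv

end Pool.Agent.Results.MP_ab13d2_an.TangentialSpeedConverse
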